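import Pool.Agent.USI3.JF1

/-!
# Universal separable injectivity is not a three-space property (MP_faf25a_an)

`UnivInj κ E` (`Pool/Agent/USI3/Defs.lean`) says that the real Banach space `E` is universally `κ`-injective: every bounded
operator into `E` defined on a closed subspace `S`, of density character less than `κ`, of a Banach space `W` extends to a bounded
operator `W → E`.

We construct in ZFC a Banach space `X` and a closed subspace `Y` such that `Y` and `X ⧸ Y` are universally `ℵ₁`-injective (universally
separably injective), `X ⧸ Y` is even linearly homeomorphic to `ℓ_∞`, and `X` is not universally `ℵ₁`-injective. So the answer to Q1 is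
negative.

Idea. `Y` is the space of all bounded functions on the set of all increasing sequences (with labels) of countable subsets of `ℓ_∞`
which depend only on the part of the sequence before some countable set `ζ`: a countably directed union of spaces `ℓ_∞(Γ_ζ)`. The
extension `X` of `ℓ_∞` by `Y` is given by functionals on `ℓ_∞` that kill larger and larger countable subsets of `ℓ_∞`; an operator from
`ℓ_∞` to `X` that extends the natural one on `c₀` would have norm at least `n` for all `n`, by a game of length `n` along an increasing
sequence of countable sets.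
-/

set_option autoImplicit false

namespace Pool.Agent.Results.MP_faf25a_an.NotThreeSpace

open USI3
open scoped ENNReal Cardinal

/-- There are a real Banach space `X` and a closed subspace `Y` such that `Y` and `X ⧸ Y` are universally `ℵ₁`-injective (with respect to
Banach spaces in any universe `v`), `X ⧸ Y` is linearly homeomorphic to `ℓ_∞`, and `X` is not universally `ℵ₁`-injective. In particular
it is not true that universal `κ`-injectivity is a three-space property for all infinite cardinals `κ`. -/
theorem result.{v} :
    (∃ (X : Type) (_ : NormedAddCommGroup X) (_ : NormedSpace ℝ X) (_ : CompleteSpace X)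
      (Y : Submodule ℝ X) (_ : IsClosed (Y : Set X)),
      UnivInj.{v} ℵ₁ Y ∧ UnivInj.{v} ℵ₁ (X ⧸ Y) ∧ Nonempty ((X ⧸ Y) ≃L[ℝ] lp (fun _ : ℕ × ℕ => ℝ) ∞) ∧
      ¬ UnivInj.{0} ℵ₁ X) ∧
    ¬ ∀ κ : Cardinal.{0}, ℵ₀ ≤ κ → ∀ (X : Type) [NormedAddCommGroup X] [NormedSpace ℝ X] [CompleteSpace X]
      (Y : Submodule ℝ X) [IsClosed (Y : Set X)],
      UnivInj.{0} κ Y → UnivInj.{0} κ (X ⧸ Y) → UnivInj.{0} κ X := by
  have hc : CompleteSpace XX := XX_closed.completeSpace_coe
  obtain ⟨e1⟩ := YY_equiv
  obtain ⟨e2⟩ := quot_equiv
  refine ⟨⟨XX, inferInstance, inferInstance, inferInstance, YY, inferInstance, univInj_congr e1 univInj_EE,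
    univInj_congr e2 (univInj_linf _ _), ⟨e2⟩, not_univInj_XX⟩, fun h => ?_⟩
  exact not_univInj_XX (h ℵ₁ (Cardinal.aleph0_le_aleph 1) XX YY (univInj_congr e1 univInj_EE)
    (univInj_congr e2 (univInj_linf _ _)))

end Pool.Agent.Results.MP_faf25a_an.NotThreeSpace
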